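import Mathlib
import Pool.Agent.Helper669.Forcing

set_option autoImplicit false

/-!
# Shooting a club without infinite ground model subsets: conditions and one-step extensions
-/

namespace Pool.Agent.W873.Club

open Cardinal Pool.Agent.Helper669.Forcing

section basic

variable {P : Type} [Preorder P]

theorem meets_dense {N : Set P} {p : P} (h : ∀ q ≤ p, ∃ r ≤ q, r ∈ meets N) : p ∈ meets N := by
  intro q hq
  obtain ⟨r, hr, h1⟩ := h q hq
  obtain ⟨s, hs, t, ht, hst⟩ := h1 r le_rfl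
  exact ⟨s, hs.trans hr, t, ht, hst⟩

theorem decide_meets (N : Set P) (p : P) :
    ∃ q ≤ p, q ∈ meets N ∨ q ∈ fnot (meets N) := by
  by_cases h : ∃ q ≤ p, q ∈ meets N
  · obtain ⟨q, hq, h⟩ := h
    exact ⟨q, hq, Or.inl h⟩
  · exact ⟨p, le_rfl, Or.inr fun q hq hn => h ⟨q, hq, hn⟩⟩

theorem meets_empty (p : P) : p ∉ meets (∅ : Set P) := by
  intro h
  obtain ⟨_, _, s, hs, _⟩ := h p le_rfl
  exact hs

theorem meets_mono {N N' : Set P} (h : N ⊆ N') {p : P} (hp : p ∈ meets N) : p ∈ meets N' := by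
  intro q hq
  obtain ⟨r, hr, s, hs, hrs⟩ := hp q hq
  exact ⟨r, hr, s, h hs, hrs⟩

theorem iff_of_dense {A B : Set P} {p : P}
    (h : ∀ q ≤ p, ∃ r ≤ q, ∀ s ≤ r, (s ∈ meets A ↔ s ∈ meets B)) :
    ∀ q ≤ p, (q ∈ meets A ↔ q ∈ meets B) := by
  intro q hq
  constructor
  · intro hA
    refine meets_dense fun r hr => ?_
    obtain ⟨s, hs, h1⟩ := h r (hr.trans hq)
    exact ⟨s, hs, (h1 s le_rfl).1 (down_meets _ _ hA s (hs.trans hr))⟩
  · intro hB
    refine meets_dense fun r hr => ?_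
    obtain ⟨s, hs, h1⟩ := h r (hr.trans hq)
    exact ⟨s, hs, (h1 s le_rfl).2 (down_meets _ _ hB s (hs.trans hr))⟩

theorem meets_union {A B : Set P} {p : P} (hp : p ∈ meets (A ∪ B)) :
    ∃ q ≤ p, q ∈ meets A ∨ q ∈ meets B := by
  obtain ⟨r, hr, s, hs, hrs⟩ := hp p le_rfl
  rcases hs with hs | hs
  · exact ⟨r, hr, Or.inl (meets_of_le hs hrs)⟩
  · exact ⟨r, hr, Or.inr (meets_of_le hs hrs)⟩

/-- mixing of two sets of conditions along the truth value of `A` -/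
def mix2 (A a b : Set P) : Set P :=
  {s | (s ∈ meets A ∧ s ∈ meets a) ∨ (s ∈ fnot (meets A) ∧ s ∈ meets b)}

theorem mix2_pos {A a b : Set P} {s : P} (hs : s ∈ meets A) :
    s ∈ meets (mix2 A a b) ↔ s ∈ meets a := by
  constructor
  · intro h
    refine meets_dense fun t ht => ?_
    obtain ⟨u, hu, w, hw, huw⟩ := h t ht
    rcases hw with ⟨_, h2⟩ | ⟨h1, _⟩
    · exact ⟨u, hu, down_meets _ _ h2 u huw⟩
    · exact absurd (down_meets _ _ hs u (hu.trans ht)) (h1 u huw)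
  · intro h
    exact meets_of_mem (Or.inl ⟨hs, h⟩)

theorem mix2_neg {A a b : Set P} {s : P} (hs : s ∈ fnot (meets A)) :
    s ∈ meets (mix2 A a b) ↔ s ∈ meets b := by
  constructor
  · intro h
    refine meets_dense fun t ht => ?_
    obtain ⟨u, hu, w, hw, huw⟩ := h t ht
    rcases hw with ⟨h1, _⟩ | ⟨_, h2⟩
    · exact absurd (down_meets _ _ h1 u huw) (hs u (hu.trans ht))
    · exact ⟨u, hu, down_meets _ _ h2 u huw⟩
  · intro h
    exact meets_of_mem (Or.inr ⟨hs, h⟩)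

theorem mix2_empty {A a b : Set P} (ha : a = ∅) (hb : b = ∅) : mix2 A a b = ∅ := by
  subst ha hb
  ext s
  simp only [mix2, Set.mem_ofPred_eq, Set.mem_empty_iff_false, iff_false]
  rintro (⟨_, h⟩ | ⟨_, h⟩) <;> exact meets_empty _ h

theorem exists_maxAntichain (D : Set P) : ∃ A ⊆ D,
    (∀ a ∈ A, ∀ b ∈ A, (∃ s, s ≤ a ∧ s ≤ b) → a = b) ∧
    ∀ d ∈ D, ∃ a ∈ A, ∃ s, s ≤ d ∧ s ≤ a := by
  obtain ⟨A, hA⟩ := zorn_subset
    {A : Set P | A ⊆ D ∧ ∀ a ∈ A, ∀ b ∈ A, (∃ s, s ≤ a ∧ s ≤ b) → a = b} (by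
      intro c hc hch
      refine ⟨⋃₀ c, ⟨Set.sUnion_subset fun s hs => (hc hs).1, ?_⟩, fun s hs =>
        Set.subset_sUnion_of_mem hs⟩
      intro a ha b hb hab
      obtain ⟨s, hs, has⟩ := ha
      obtain ⟨t, ht, hbt⟩ := hb
      rcases hch.total hs ht with h | h
      · exact (hc ht).2 a (h has) b hbt hab
      · exact (hc hs).2 a has b (h hbt) hab)
  refine ⟨A, hA.1.1, hA.1.2, fun d hd => ?_⟩
  by_contra hcon
  push Not at hcon
  have h1 : insert d A ∈ {A : Set P | A ⊆ D ∧ ∀ a ∈ A, ∀ b ∈ A, (∃ s, s ≤ a ∧ s ≤ b) → a = b} := by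
    refine ⟨Set.insert_subset hd hA.1.1, ?_⟩
    rintro a (rfl | ha) b (rfl | hb) ⟨s, hs1, hs2⟩
    · rfl
    · exact absurd hs2 (hcon b hb s hs1)
    · exact absurd hs1 (hcon a ha s hs2)
    · exact hA.1.2 a ha b hb ⟨s, hs1, hs2⟩
  have h2 : d ∈ A := hA.2 h1 (Set.subset_insert d A) (Set.mem_insert d A)
  exact hcon d h2 d le_rfl le_rfl

variable {K : Type}

/-- mixing of names along an antichain -/
def mixA (A : Set P) (c : P → K → Set P) : K → Set P :=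
  fun x => {s | ∃ r ∈ A, s ≤ r ∧ s ∈ meets (c r x)}

theorem mixA_iff {A : Set P} (hA : ∀ a ∈ A, ∀ b ∈ A, (∃ s, s ≤ a ∧ s ≤ b) → a = b)
    (c : P → K → Set P) {r s : P} (hr : r ∈ A) (hs : s ≤ r) (x : K) :
    s ∈ meets (mixA A c x) ↔ s ∈ meets (c r x) := by
  constructor
  · intro h
    refine meets_dense fun t ht => ?_
    obtain ⟨u, hu, v, ⟨r', hr', hv, hv'⟩, huv⟩ := h t ht
    have : r = r' := hA r hr r' hr' ⟨u, (hu.trans ht).trans hs, huv.trans hv⟩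
    subst this
    exact ⟨u, hu, down_meets _ _ hv' u huv⟩
  · intro h
    exact meets_of_mem ⟨r, hr, hs, h⟩

end basic

section cond

variable {P K : Type} [Preorder P] [LinearOrder K]

/-- `p` forces that `c` is a closed subset of `K` bounded by `g` without infinite subsets from the
ground model. -/
structure Val (p : P) (g : K) (c : K → Set P) : Prop where
  supp : ∀ x, g < x → c x = ∅
  cl : ∀ z, (∃ b, b < z) → ∀ q ≤ p, q ∈ fnot (meets (c z)) →
    ∃ r ≤ q, ∃ b < z, ∀ x, b < x → x < z → r ∈ fnot (meets (c x))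
  fin : ∀ q ≤ p, {x | q ∈ meets (c x)}.Finite

theorem Val.mono {p q : P} {g : K} {c : K → Set P} (h : Val p g c) (hq : q ≤ p) : Val q g c :=
  ⟨h.supp, fun z hz r hr => h.cl z hz r (hr.trans hq), fun r hr => h.fin r (hr.trans hq)⟩

theorem Val.raise {p : P} {g g' : K} {c : K → Set P} (h : Val p g c) (hg : g ≤ g') :
    Val p g' c :=
  ⟨fun x hx => h.supp x (hg.trans_lt hx), h.cl, h.fin⟩

variable (P K) in
/-- The conditions. -/
structure Cnd where
  p : P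
  g : K
  c : K → Set P
  val : Val p g c

instance : Preorder (Cnd P K) where
  le d' d := d'.p ≤ d.p ∧ d.g ≤ d'.g ∧
    ∀ x ≤ d.g, ∀ q ≤ d'.p, (q ∈ meets (d'.c x) ↔ q ∈ meets (d.c x))
  le_refl d := ⟨le_rfl, le_rfl, fun _ _ _ _ => Iff.rfl⟩
  le_trans a b c h h' := ⟨h.1.trans h'.1, h'.2.1.trans h.2.1, fun x hx q hq =>
    (h.2.2 x (hx.trans h'.2.1) q hq).trans (h'.2.2 x hx q (hq.trans h.1))⟩

theorem le_def {d' d : Cnd P K} : d' ≤ d ↔ d'.p ≤ d.p ∧ d.g ≤ d'.g ∧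
    ∀ x ≤ d.g, ∀ q ≤ d'.p, (q ∈ meets (d'.c x) ↔ q ∈ meets (d.c x)) := Iff.rfl

theorem addpt {p : P} {g g' : K} {c : K → Set P} (h : Val p g c) (hg : g < g') :
    Val p g' (fun x => c x ∪ {s | x = g'}) := by
  refine ⟨fun x hx => ?_, fun z hz q hq hn => ?_, fun q hq => ?_⟩
  · ext s
    simp only [h.supp x (hg.trans hx), Set.mem_union, Set.mem_empty_iff_false, Set.mem_ofPred_eq,
      false_or, iff_false]
    exact hx.ne'
  · by_cases hzg : g' < z
    · refine ⟨q, le_rfl, g', hzg, fun x hx _ r _ hr => ?_⟩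
      obtain ⟨_, _, s, hs, _⟩ := hr r le_rfl
      rcases hs with hs | hs
      · rw [h.supp x (hg.trans hx)] at hs
        exact hs
      · exact absurd hs hx.ne'
    · have hne : z ≠ g' := by
        rintro rfl
        exact hn q le_rfl (meets_of_mem (Or.inr rfl))
      have hlt : z < g' := lt_of_le_of_ne (not_lt.1 hzg) hne
      obtain ⟨r, hr, b, hb, hx⟩ := h.cl z hz q hq
        (fun s hs hm => hn s hs (meets_mono Set.subset_union_left hm))
      refine ⟨r, hr, b, hb, fun x hbx hxz s hs hm => ?_⟩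
      obtain ⟨t, ht, hm⟩ := meets_union hm
      rcases hm with hm | hm
      · exact hx x hbx hxz t (ht.trans hs) hm
      · obtain ⟨_, _, u, hu, _⟩ := hm t le_rfl
        exact absurd hu (hxz.trans hlt).ne
  · refine ((h.fin q hq).union (Set.finite_singleton g')).subset fun x hx => ?_
    by_cases hxg : x = g'
    · exact Or.inr hxg
    · refine Or.inl ?_
      refine meets_dense fun r hr => ?_
      obtain ⟨t, ht, hm⟩ := meets_union (down_meets _ _ hx r hr)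
      rcases hm with hm | hm
      · exact ⟨t, ht, hm⟩
      · obtain ⟨_, _, u, hu, _⟩ := hm t le_rfl
        exact absurd hu hxg

/-- One step: entering an open dense set without changing the first coordinate. -/
theorem step (hK : ∀ f : P → K, ∃ b, ∀ p, f p < b) {φ : Set (Cnd P K)} (hφ : Down φ)
    (hdense : ∀ d : Cnd P K, ∃ e ≤ d, e ∈ φ) (p : P) (g : K) (c : K → Set P) (h : Val p g c) :
    ∃ g' c', ∃ h' : Val p g' c', (⟨p, g', c', h'⟩ : Cnd P K) ≤ ⟨p, g, c, h⟩ ∧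
      ∀ q ≤ p, ∃ r ≤ q, ∃ h'' : Val r g' c', (⟨r, g', c', h''⟩ : Cnd P K) ∈ φ := by
  classical
  let D : Set P := {r | ∃ t : K × (K → Set P), ∃ h1 : Val r t.1 t.2,
    (⟨r, t.1, t.2, h1⟩ : Cnd P K) ∈ φ ∧ (⟨r, t.1, t.2, h1⟩ : Cnd P K) ≤ ⟨p, g, c, h⟩}
  have hD : ∀ q ≤ p, ∃ r ≤ q, r ∈ D := by
    intro q hq
    obtain ⟨e, he, heφ⟩ := hdense ⟨q, g, c, h.mono hq⟩
    refine ⟨e.p, he.1, (e.g, e.c), e.val, heφ, he.1.trans hq, he.2.1, he.2.2⟩
  obtain ⟨A, hAD, hA, hmax⟩ := exists_maxAntichain D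
  have hex : ∀ r, ∃ t : K × (K → Set P), r ∈ D → ∃ h1 : Val r t.1 t.2,
      (⟨r, t.1, t.2, h1⟩ : Cnd P K) ∈ φ ∧ (⟨r, t.1, t.2, h1⟩ : Cnd P K) ≤ ⟨p, g, c, h⟩ := by
    intro r
    by_cases hr : r ∈ D
    · obtain ⟨t, ht⟩ := hr
      exact ⟨t, fun _ => ht⟩
    · exact ⟨(g, c), fun h => absurd h hr⟩
  choose t ht using hex
  obtain ⟨g₁, hg₁⟩ := hK fun r => (t r).1
  let g' := max g g₁
  have hg' : ∀ r, (t r).1 < g' := fun r => (hg₁ r).trans_le (le_max_right _ _)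
  let c' : K → Set P := mixA A fun r => (t r).2
  have hc' : ∀ r ∈ A, ∀ s ≤ r, ∀ x, (s ∈ meets (c' x) ↔ s ∈ meets ((t r).2 x)) :=
    fun r hr s hs x => mixA_iff hA _ hr hs x
  have hfind : ∀ q ≤ p, ∃ s ≤ q, ∃ a ∈ A, s ≤ a := by
    intro q hq
    obtain ⟨r, hr, hrD⟩ := hD q hq
    obtain ⟨a, ha, s, hs, hsa⟩ := hmax r hrD
    exact ⟨s, hs.trans hr, a, ha, hsa⟩
  have hval : Val p g' c' := by
    refine ⟨fun x hx => ?_, fun z hz q hq hn => ?_, fun q hq => ?_⟩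
    · ext s
      simp only [Set.mem_empty_iff_false, iff_false]
      rintro ⟨r, hr, _, hm⟩
      obtain ⟨h1, _⟩ := ht r (hAD hr)
      change s ∈ meets ((t r).2 x) at hm
      rw [h1.supp x ((hg' r).trans hx)] at hm
      exact meets_empty _ hm
    · obtain ⟨s, hs, a, ha, hsa⟩ := hfind q hq
      obtain ⟨h1, _⟩ := ht a (hAD ha)
      obtain ⟨r, hr, b, hb, hx⟩ := h1.cl z hz s hsa (fun u hu hm =>
        hn u (hu.trans hs) ((hc' a ha u (hu.trans hsa) z).2 hm))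
      exact ⟨r, hr.trans hs, b, hb, fun x hbx hxz u hu hm =>
        hx x hbx hxz u hu ((hc' a ha u (hu.trans (hr.trans hsa)) x).1 hm)⟩
    · obtain ⟨s, hs, a, ha, hsa⟩ := hfind q hq
      obtain ⟨h1, _⟩ := ht a (hAD ha)
      refine (h1.fin s hsa).subset fun x hx => ?_
      exact (hc' a ha s hsa x).1 (down_meets _ _ hx s hs)
  refine ⟨g', c', hval, ⟨le_rfl, le_max_left _ _, fun x hx => ?_⟩, fun q hq => ?_⟩
  · refine iff_of_dense fun q hq => ?_
    obtain ⟨s, hs, a, ha, hsa⟩ := hfind q hq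
    obtain ⟨_, _, h2⟩ := ht a (hAD ha)
    exact ⟨s, hs, fun u hu => (hc' a ha u (hu.trans hsa) x).trans (h2.2.2 x hx u (hu.trans hsa))⟩
  · obtain ⟨s, hs, a, ha, hsa⟩ := hfind q hq
    obtain ⟨h1, h3, _⟩ := ht a (hAD ha)
    refine ⟨s, hs, hval.mono (hs.trans hq), hφ _ h3 _ ⟨hsa, (hg' a).le, fun x _ u hu => ?_⟩⟩
    exact hc' a ha u (hu.trans hsa) x

end cond

end Pool.Agent.W873.Club
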