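import Pool.Agent.W873.Club1

set_option autoImplicit false

/-!
# Shooting a club without infinite ground model subsets: distributivity
-/

namespace Pool.Agent.W873.Club

open Cardinal Pool.Agent.Helper669.Forcing

variable {P M K : Type} [Preorder P] [LinearOrder M] [LinearOrder K]

/-- Every condition forces that `C` is a closed subset of `M` without infinite subset from the
ground model, which meets all unbounded subsets of `M` from the ground model. -/
structure Good (C : M → Set P) : Prop where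
  cl : ∀ z, (∃ b, b < z) → ∀ q, q ∈ fnot (meets (C z)) →
    ∃ r ≤ q, ∃ b < z, ∀ x, b < x → x < z → r ∈ fnot (meets (C x))
  fin : ∀ q, {x | q ∈ meets (C x)}.Finite
  hit : ∀ B : Set M, (∀ a, ∃ b ∈ B, a < b) → ∀ p, ∃ q ≤ p, ∃ b ∈ B, q ∈ meets (C b)

/-- union of the names of the stages in `S` -/
def pre (c0 : K → Set P) (st : M → K × (K → Set P)) (S : Set M) : K → Set P :=
  fun x => {s | s ∈ c0 x ∨ ∃ η ∈ S, s ∈ (st η).2 x}

def ub (g0 : K) (st : M → K × (K → Set P)) (S : Set M) : Set K :=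
  {z | g0 < z ∧ ∀ η ∈ S, (st η).1 < z}

variable [WellFoundedLT K]

open Classical in
/-- the least element of `A` -/
noncomputable def minOr (A : Set K) (g0 : K) : K :=
  if h : A.Nonempty then (wellFounded_lt (α := K)).min A h else g0

/-- the least strict upper bound of the heights of the stages in `S` -/
noncomputable def top (g0 : K) (st : M → K × (K → Set P)) (S : Set M) : K :=
  minOr (ub g0 st S) g0

/-- add the point `g` -/
def addp (c : K → Set P) (g : K) : K → Set P := fun x => {s | s ∈ c x ∨ x = g}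

theorem top_mem {g0 : K} {st : M → K × (K → Set P)} {S : Set M} (h : (ub g0 st S).Nonempty) :
    top g0 st S ∈ ub g0 st S := by
  unfold top minOr
  rw [dif_pos h]
  exact WellFounded.min_mem _ _ _

theorem top_le {g0 : K} {st : M → K × (K → Set P)} {S : Set M} {z : K} (h : z ∈ ub g0 st S) :
    top g0 st S ≤ z := by
  unfold top minOr
  rw [dif_pos ⟨z, h⟩]
  exact WellFounded.min_le _ h

theorem ub_nonempty (hM : ∀ f : M → K, ∃ b, ∀ m, f m < b) (hm : ∀ a : K, ∃ b, a < b) (g0 : K)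
    (st : M → K × (K → Set P)) (S : Set M) : (ub g0 st S).Nonempty := by
  obtain ⟨b, hb⟩ := hM fun m => (st m).1
  obtain ⟨b', hb'⟩ := hm (max b g0)
  exact ⟨b', (le_max_right _ _).trans_lt hb', fun η _ =>
    (hb η).trans_le ((le_max_left _ _).trans hb'.le)⟩

/-- the properties of stage `ξ` -/
structure Inv (C : M → Set P) (p0 : P) (g0 : K) (c0 : K → Set P)
    (st : M → K × (K → Set P)) (ξ : M) : Prop where
  val : Val p0 (st ξ).1 (st ξ).2
  gt : top g0 st (Set.Iio ξ) ≤ (st ξ).1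
  agree0 : ∀ x ≤ g0, ∀ q ≤ p0, (q ∈ meets ((st ξ).2 x) ↔ q ∈ meets (c0 x))
  agree : ∀ η < ξ, ∀ x ≤ (st η).1, ∀ q ≤ p0,
    (q ∈ meets ((st ξ).2 x) ↔ q ∈ meets ((st η).2 x))
  new : ∀ x, top g0 st (Set.Iio ξ) ≤ x → ∀ s ≤ p0, s ∈ meets ((st ξ).2 x) → s ∈ meets (C ξ)

section lower

variable {C : M → Set P} {p0 : P} {g0 : K} {c0 : K → Set P} {st : M → K × (K → Set P)}
  {S : Set M}

theorem mono_height (hub : ∀ S, (ub g0 st S).Nonempty) (hI : ∀ η ∈ S, Inv C p0 g0 c0 st η)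
    {η ζ : M} (hη : η ∈ S) (h : ζ < η) : (st ζ).1 < (st η).1 :=
  ((top_mem (hub (Set.Iio η))).2 ζ h).trans_le (hI η hη).gt

theorem A1 (h0 : Val p0 g0 c0) (hI : ∀ η ∈ S, Inv C p0 g0 c0 st η) {η : M} (hη : η ∈ S) {x : K}
    (hx : x ≤ (st η).1) {q : P} (hq : q ≤ p0) :
    q ∈ meets (pre c0 st S x) ↔ q ∈ meets ((st η).2 x) := by
  constructor
  · intro h
    refine meets_dense fun r hr => ?_
    obtain ⟨t, ht, v, hv, htv⟩ := h r hr
    have htp : t ≤ p0 := (ht.trans hr).trans hq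
    refine ⟨t, ht, ?_⟩
    rcases hv with hv | ⟨ζ, hζ, hv⟩
    · have h1 : t ∈ meets (c0 x) := meets_of_le hv htv
      rcases le_or_gt x g0 with hxg | hxg
      · exact ((hI η hη).agree0 x hxg t htp).2 h1
      · rw [h0.supp x hxg] at hv
        exact absurd hv (Set.notMem_empty _)
    · have h1 : t ∈ meets ((st ζ).2 x) := meets_of_le hv htv
      rcases lt_trichotomy ζ η with h2 | h2 | h2
      · rcases le_or_gt x (st ζ).1 with hxg | hxg
        · exact ((hI η hη).agree ζ h2 x hxg t htp).2 h1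
        · rw [(hI ζ hζ).val.supp x hxg] at hv
          exact absurd hv (Set.notMem_empty _)
      · exact h2 ▸ h1
      · exact ((hI ζ hζ).agree η h2 x hx t htp).1 h1
  · exact meets_mono fun s hs => Or.inr ⟨η, hη, hs⟩

theorem A1' (hI : ∀ η ∈ S, Inv C p0 g0 c0 st η) {x : K}
    (hx : x ≤ g0) {q : P} (hq : q ≤ p0) :
    q ∈ meets (pre c0 st S x) ↔ q ∈ meets (c0 x) := by
  constructor
  · intro h
    refine meets_dense fun r hr => ?_
    obtain ⟨t, ht, v, hv, htv⟩ := h r hr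
    have htp : t ≤ p0 := (ht.trans hr).trans hq
    refine ⟨t, ht, ?_⟩
    rcases hv with hv | ⟨ζ, hζ, hv⟩
    · exact meets_of_le hv htv
    · exact ((hI ζ hζ).agree0 x hx t htp).1 (meets_of_le hv htv)
  · exact meets_mono fun s hs => Or.inl hs

theorem A2 (h0 : Val p0 g0 c0) (hub : ∀ S, (ub g0 st S).Nonempty)
    (hI : ∀ η ∈ S, Inv C p0 g0 c0 st η) {x : K} (hx : top g0 st S ≤ x) :
    pre c0 st S x = ∅ := by
  ext s
  simp only [Set.mem_empty_iff_false, iff_false]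
  rintro (hs | ⟨ζ, hζ, hs⟩)
  · rw [h0.supp x ((top_mem (hub S)).1.trans_le hx)] at hs
    exact hs
  · rw [(hI ζ hζ).val.supp x (((top_mem (hub S)).2 ζ hζ).trans_le hx)] at hs
    exact hs

theorem A2' [WellFoundedLT M] (hS : ∀ η ∈ S, ∀ ζ < η, ζ ∈ S) {x : K} (hx : x < top g0 st S) :
    x ≤ g0 ∨ ∃ η ∈ S, x ≤ (st η).1 ∧ top g0 st (Set.Iio η) ≤ x := by
  rcases le_or_gt x g0 with hxg | hxg
  · exact Or.inl hxg
  · right
    have h1 : {η | η ∈ S ∧ x ≤ (st η).1}.Nonempty := by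
      by_contra hcon
      rw [Set.not_nonempty_iff_eq_empty] at hcon
      have : x ∈ ub g0 st S := ⟨hxg, fun η hη => by
        by_contra hh
        have : η ∈ {η | η ∈ S ∧ x ≤ (st η).1} := ⟨hη, not_lt.1 hh⟩
        rw [hcon] at this
        exact this⟩
      exact absurd (top_le this) (not_le.2 hx)
    obtain ⟨h2, h3⟩ := WellFounded.min_mem (wellFounded_lt (α := M)) _ h1
    refine ⟨_, h2, h3, top_le ⟨hxg, fun ζ hζ => ?_⟩⟩
    by_contra hh
    exact WellFounded.not_lt_min (wellFounded_lt (α := M)) _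
      (show ζ ∈ {η | η ∈ S ∧ x ≤ (st η).1} from ⟨hS _ h2 ζ hζ, not_lt.1 hh⟩) hζ

theorem A3 [WellFoundedLT M] (hC : Good C) (h0 : Val p0 g0 c0)
    (hub : ∀ S, (ub g0 st S).Nonempty) (hS : ∀ η ∈ S, ∀ ζ < η, ζ ∈ S)
    (hI : ∀ η ∈ S, Inv C p0 g0 c0 st η) {q : P} (hq : q ≤ p0) :
    {x | q ∈ meets (pre c0 st S x)}.Finite := by
  have h1 : ({x | q ∈ meets (c0 x)} ∪
      ⋃ η ∈ {η | q ∈ meets (C η)} ∩ S, {x | q ∈ meets ((st η).2 x)}).Finite := by
    refine (h0.fin q hq).union (Set.Finite.biUnion ((hC.fin q).inter_of_left S) ?_)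
    intro η hη
    exact (hI η hη.2).val.fin q hq
  refine h1.subset fun x hx => ?_
  have hlt : x < top g0 st S := by
    by_contra hcon
    have : q ∈ meets (pre c0 st S x) := hx
    rw [A2 h0 hub hI (not_lt.1 hcon)] at this
    exact meets_empty _ this
  rcases A2' hS hlt with hxg | ⟨η, hη, hx1, hx2⟩
  · exact Or.inl ((A1' hI hxg hq).1 hx)
  · right
    have h2 := (A1 h0 hI hη hx1 hq).1 hx
    simp only [Set.mem_iUnion]
    exact ⟨η, ⟨(hI η hη).new x hx2 q hq h2, hη⟩, h2⟩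

theorem A4 [WellFoundedLT M] (h0 : Val p0 g0 c0)
    (hS : ∀ η ∈ S, ∀ ζ < η, ζ ∈ S)
    (hI : ∀ η ∈ S, Inv C p0 g0 c0 st η) {z : K} (hz : z < top g0 st S) (hz' : ∃ b, b < z) {q : P}
    (hq : q ≤ p0) (hn : q ∈ fnot (meets (pre c0 st S z))) :
    ∃ r ≤ q, ∃ b < z, ∀ x, b < x → x < z → r ∈ fnot (meets (pre c0 st S x)) := by
  rcases A2' hS hz with hxg | ⟨η, hη, hx1, _⟩
  · obtain ⟨r, hr, b, hb, hx⟩ := h0.cl z hz' q hq fun s hs hm =>
      hn s hs ((A1' hI hxg (hs.trans hq)).2 hm)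
    exact ⟨r, hr, b, hb, fun x hbx hxz s hs hm =>
      hx x hbx hxz s hs ((A1' hI (hxz.le.trans hxg) (hs.trans (hr.trans hq))).1 hm)⟩
  · obtain ⟨r, hr, b, hb, hx⟩ := (hI η hη).val.cl z hz' q hq fun s hs hm =>
      hn s hs ((A1 h0 hI hη hx1 (hs.trans hq)).2 hm)
    exact ⟨r, hr, b, hb, fun x hbx hxz s hs hm =>
      hx x hbx hxz s hs ((A1 h0 hI hη (hxz.le.trans hx1) (hs.trans (hr.trans hq))).1 hm)⟩

theorem A5 [WellFoundedLT M] (hC : Good C) (h0 : Val p0 g0 c0)
    (hub : ∀ S, (ub g0 st S).Nonempty) {ξ : M}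
    (hI : ∀ η ∈ Set.Iio ξ, Inv C p0 g0 c0 st η) {q : P}
    (hq : q ≤ p0) (hn : q ∈ fnot (meets (C ξ))) :
    ∃ r ≤ q, ∃ b < top g0 st (Set.Iio ξ), ∀ x, b < x → x < top g0 st (Set.Iio ξ) →
      r ∈ fnot (meets (pre c0 st (Set.Iio ξ) x)) := by
  by_cases hmin : ∃ b, b < ξ
  · obtain ⟨r, hr, b, hb, hx⟩ := hC.cl ξ hmin q hn
    refine ⟨r, hr, (st b).1, (top_mem (hub _)).2 b hb, fun x hbx hxt s hs hm => ?_⟩
    have hS : ∀ η ∈ Set.Iio ξ, ∀ ζ < η, ζ ∈ Set.Iio ξ := fun η hη ζ hζ => lt_trans hζ hη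
    have hsp : s ≤ p0 := (hs.trans hr).trans hq
    rcases A2' hS hxt with hxg | ⟨η, hη, hx1, hx2⟩
    · exact absurd (hbx.trans_le hxg) (not_lt.2
        ((top_mem (hub (Set.Iio b))).1.le.trans (hI b hb).gt))
    · have h2 := (A1 h0 hI hη hx1 hsp).1 hm
      have h3 := (hI η hη).new x hx2 s hsp h2
      have h4 : b < η := by
        by_contra hcon
        rcases (not_lt.1 hcon).eq_or_lt with h5 | h5
        · subst h5
          exact absurd hbx (not_lt.2 hx1)
        · exact absurd (hbx.trans_le hx1) (not_lt.2 (mono_height hub hI hb h5).le)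
      exact hx η h4 hη s hs h3
  · refine ⟨q, le_rfl, g0, (top_mem (hub _)).1, fun x hbx hxt => ?_⟩
    have : x ∈ ub g0 st (Set.Iio ξ) := ⟨hbx, fun η hη => absurd ⟨η, hη⟩ hmin⟩
    exact absurd (top_le this) (not_le.2 hxt)

theorem meets_addp {c : K → Set P} {g x : K} (hx : x ≠ g) {q : P} :
    q ∈ meets (addp c g x) ↔ q ∈ meets (c x) := by
  have : addp c g x = c x := by
    ext s
    simp [addp, hx]
  rw [this]

theorem val_addp [WellFoundedLT M] (hC : Good C) (h0 : Val p0 g0 c0)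
    (hub : ∀ S, (ub g0 st S).Nonempty) (hS : ∀ η ∈ S, ∀ ζ < η, ζ ∈ S)
    (hI : ∀ η ∈ S, Inv C p0 g0 c0 st η) :
    Val p0 (top g0 st S) (addp (pre c0 st S) (top g0 st S)) := by
  refine ⟨fun x hx => ?_, fun z hz q hq hn => ?_, fun q hq => ?_⟩
  · ext s
    have := A2 h0 hub hI hx.le
    simp [addp, this, hx.ne']
  · rcases lt_trichotomy z (top g0 st S) with h1 | h1 | h1
    · obtain ⟨r, hr, b, hb, hx⟩ := A4 h0 hS hI h1 hz hq
        (fun s hs hm => hn s hs ((meets_addp h1.ne).2 hm))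
      exact ⟨r, hr, b, hb, fun x hbx hxz s hs hm =>
        hx x hbx hxz s hs ((meets_addp (hxz.trans h1).ne).1 hm)⟩
    · exact (hn q le_rfl (meets_of_mem (Or.inr h1))).elim
    · refine ⟨q, le_rfl, _, h1, fun x hbx hxz s hs hm => ?_⟩
      rw [meets_addp hbx.ne', A2 h0 hub hI hbx.le] at hm
      exact meets_empty _ hm
  · refine ((A3 hC h0 hub hS hI hq).union (Set.finite_singleton (top g0 st S))).subset
      fun x hx => ?_
    by_cases h1 : x = top g0 st S
    · exact Or.inr h1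
    · exact Or.inl ((meets_addp h1).1 hx)

end lower

/-- the next stage, from the previous ones -/
noncomputable def body (C : M → Set P) (b : M → M) (F : K → (K → Set P) → M → K × (K → Set P))
    (g0 : K) (c0 : K → Set P) (ξ : M) (st : M → K × (K → Set P)) : K × (K → Set P) :=
  ((F (top g0 st (Set.Iio ξ)) (addp (pre c0 st (Set.Iio ξ)) (top g0 st (Set.Iio ξ))) (b ξ)).1,
    fun x => mix2 (C ξ)
      ((F (top g0 st (Set.Iio ξ)) (addp (pre c0 st (Set.Iio ξ)) (top g0 st (Set.Iio ξ)))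
        (b ξ)).2 x) (pre c0 st (Set.Iio ξ) x))

theorem body_congr (C : M → Set P) (b : M → M) (F : K → (K → Set P) → M → K × (K → Set P))
    (g0 : K) (c0 : K → Set P) (ξ : M) {st st' : M → K × (K → Set P)}
    (h : ∀ η < ξ, st η = st' η) : body C b F g0 c0 ξ st = body C b F g0 c0 ξ st' := by
  have h1 : ub g0 st (Set.Iio ξ) = ub g0 st' (Set.Iio ξ) := by
    ext z
    constructor
    · exact fun hz => ⟨hz.1, fun η hη => h η hη ▸ hz.2 η hη⟩
    · exact fun hz => ⟨hz.1, fun η hη => (h η hη).symm ▸ hz.2 η hη⟩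
  have h2 : top g0 st (Set.Iio ξ) = top g0 st' (Set.Iio ξ) := by
    unfold top
    rw [h1]
  have h3 : pre c0 st (Set.Iio ξ) = pre c0 st' (Set.Iio ξ) := by
    funext x
    ext s
    constructor
    · rintro (hs | ⟨η, hη, hs⟩)
      · exact Or.inl hs
      · exact Or.inr ⟨η, hη, h η hη ▸ hs⟩
    · rintro (hs | ⟨η, hη, hs⟩)
      · exact Or.inl hs
      · exact Or.inr ⟨η, hη, (h η hη).symm ▸ hs⟩
  unfold body
  rw [h2, h3]

theorem exists_st [WellFoundedLT M] (C : M → Set P) (b : M → M)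
    (F : K → (K → Set P) → M → K × (K → Set P)) (g0 : K) (c0 : K → Set P) :
    ∃ st : M → K × (K → Set P), ∀ ξ, st ξ = body C b F g0 c0 ξ st := by
  classical
  let rec' : ∀ ξ : M, (∀ η, η < ξ → K × (K → Set P)) → K × (K → Set P) := fun ξ r =>
    body C b F g0 c0 ξ fun η => if h : η < ξ then r η h else (g0, c0)
  refine ⟨(wellFounded_lt (α := M)).fix rec', fun ξ => ?_⟩
  rw [WellFounded.fix_eq]
  refine body_congr _ _ _ _ _ _ fun η hη => ?_
  simp only [hη, dif_pos]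

theorem inv [WellFoundedLT M] {C : M → Set P} (hC : Good C) {b : M → M}
    {F : K → (K → Set P) → M → K × (K → Set P)} {p0 : P} {g0 : K} {c0 : K → Set P}
    (h0 : Val p0 g0 c0) {st : M → K × (K → Set P)} (hst : ∀ ξ, st ξ = body C b F g0 c0 ξ st)
    (hub : ∀ S, (ub g0 st S).Nonempty)
    (hF1 : ∀ g c i, Val p0 g c → Val p0 (F g c i).1 (F g c i).2)
    (hF2 : ∀ g c i, Val p0 g c → g ≤ (F g c i).1)
    (hF3 : ∀ g c i, Val p0 g c → ∀ x ≤ g, ∀ q ≤ p0,
      (q ∈ meets ((F g c i).2 x) ↔ q ∈ meets (c x)))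
    (ξ : M) : Inv C p0 g0 c0 st ξ := by
  induction ξ using WellFoundedLT.induction with
  | ind ξ ih =>
    have hS : ∀ η ∈ Set.Iio ξ, ∀ ζ < η, ζ ∈ Set.Iio ξ := fun η hη ζ hζ => lt_trans hζ hη
    have hI : ∀ η ∈ Set.Iio ξ, Inv C p0 g0 c0 st η := fun η hη => ih η hη
    have hv := val_addp hC h0 hub hS hI
    set G := top g0 st (Set.Iio ξ) with hG
    set U := pre c0 st (Set.Iio ξ) with hU
    have e1 : (st ξ).1 = (F G (addp U G) (b ξ)).1 := by rw [hst ξ]; rfl
    have e2 : ∀ x, (st ξ).2 x = mix2 (C ξ) ((F G (addp U G) (b ξ)).2 x) (U x) := by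
      intro x; rw [hst ξ]; rfl
    have k1 := hF1 G (addp U G) (b ξ) hv
    have k2 := hF2 G (addp U G) (b ξ) hv
    have k3 := hF3 G (addp U G) (b ξ) hv
    set g' := (F G (addp U G) (b ξ)).1
    set c' := (F G (addp U G) (b ξ)).2
    have hUe : ∀ x, G ≤ x → U x = ∅ := fun x hx => A2 h0 hub hI hx
    have agreeU : ∀ x < G, ∀ q ≤ p0, (q ∈ meets ((st ξ).2 x) ↔ q ∈ meets (U x)) := by
      intro x hx
      refine iff_of_dense fun q hq => ?_
      obtain ⟨r, hr, hd⟩ := decide_meets (C ξ) q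
      refine ⟨r, hr, fun s hs => ?_⟩
      rw [e2]
      rcases hd with hd | hd
      · rw [mix2_pos (down_meets _ _ hd s hs), k3 x hx.le s (hs.trans (hr.trans hq)),
          meets_addp hx.ne]
      · rw [mix2_neg (down_fnot _ _ hd s hs)]
    refine ⟨⟨fun x hx => ?_, fun z hz q hq hn => ?_, fun q hq => ?_⟩, ?_, ?_, ?_, ?_⟩
    · rw [e2]
      rw [e1] at hx
      exact mix2_empty (k1.supp x hx) (hUe x (k2.trans hx.le))
    · obtain ⟨q', hq', hd⟩ := decide_meets (C ξ) q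
      rcases hd with hd | hd
      · obtain ⟨r, hr, b, hb, hx⟩ := k1.cl z hz q' (hq'.trans hq) fun s hs hm =>
          hn s (hs.trans hq') (by
            rw [e2, mix2_pos (down_meets _ _ hd s hs)]
            exact hm)
        refine ⟨r, hr.trans hq', b, hb, fun x hbx hxz s hs hm => hx x hbx hxz s hs ?_⟩
        rw [e2, mix2_pos (down_meets _ _ hd s (hs.trans hr))] at hm
        exact hm
      · have hn' : q' ∈ fnot (meets (U z)) := fun s hs hm => hn s (hs.trans hq') (by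
            rw [e2, mix2_neg (down_fnot _ _ hd s hs)]
            exact hm)
        have key : ∃ r ≤ q', ∃ b < z, ∀ x, b < x → x < z → r ∈ fnot (meets (U x)) := by
          rcases lt_trichotomy z G with h1 | h1 | h1
          · exact A4 h0 hS hI h1 hz (hq'.trans hq) hn'
          · rw [h1]
            exact A5 hC h0 hub hI (hq'.trans hq) hd
          · refine ⟨q', le_rfl, G, h1, fun x hbx hxz s hs hm => ?_⟩
            rw [hUe x hbx.le] at hm
            exact meets_empty _ hm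
        obtain ⟨r, hr, b, hb, hx⟩ := key
        refine ⟨r, hr.trans hq', b, hb, fun x hbx hxz s hs hm => hx x hbx hxz s hs ?_⟩
        rw [e2, mix2_neg (down_fnot _ _ hd s (hs.trans hr))] at hm
        exact hm
    · obtain ⟨q', hq', hd⟩ := decide_meets (C ξ) q
      rcases hd with hd | hd
      · refine (k1.fin q' (hq'.trans hq)).subset fun x hx => ?_
        have := down_meets _ _ hx q' hq'
        rw [e2, mix2_pos hd] at this
        exact this
      · refine (A3 hC h0 hub hS hI (hq'.trans hq)).subset fun x hx => ?_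
        have := down_meets _ _ hx q' hq'
        rw [e2, mix2_neg hd] at this
        exact this
    · rw [e1]
      exact k2
    · intro x hx q hq
      rw [agreeU x (hx.trans_lt (top_mem (hub _)).1) q hq, A1' hI hx hq]
    · intro η hη x hx q hq
      rw [agreeU x (hx.trans_lt ((top_mem (hub _)).2 η hη)) q hq, A1 h0 hI hη hx hq]
    · intro x hx s hs hm
      refine meets_dense fun t ht => ?_
      obtain ⟨u, hu, hd⟩ := decide_meets (C ξ) t
      rcases hd with hd | hd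
      · exact ⟨u, hu, hd⟩
      · exfalso
        have := down_meets _ _ hm u (hu.trans ht)
        rw [e2, mix2_neg hd, hUe x hx] at this
        exact meets_empty _ this

/-- **Distributivity**. -/
theorem distributive [WellFoundedLT M] (hP : ∀ f : P → K, ∃ b, ∀ p, f p < b)
    (hM : ∀ f : M → K, ∃ b, ∀ m, f m < b) (hm : ∀ a : K, ∃ b, a < b)
    {C : M → Set P} (hC : Good C) {b : M → M} (hb : ∀ i a, ∃ m, a < m ∧ b m = i)
    {φ : M → Set (Cnd P K)} (hφ : ∀ i, Down (φ i)) (hdense : ∀ i, ∀ d, ∃ e ≤ d, e ∈ φ i)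
    (d : Cnd P K) : ∃ e ≤ d, e.p = d.p ∧
      ∀ i, ∀ q ≤ d.p, ∃ r ≤ q, ∃ h : Val r e.g e.c, (⟨r, e.g, e.c, h⟩ : Cnd P K) ∈ φ i := by
  classical
  obtain ⟨p0, g0, c0, h0⟩ := d
  have hex : ∀ (g : K) (c : K → Set P) (i : M), ∃ t : K × (K → Set P), Val p0 g c →
      ∃ h' : Val p0 t.1 t.2, g ≤ t.1 ∧
        (∀ x ≤ g, ∀ q ≤ p0, (q ∈ meets (t.2 x) ↔ q ∈ meets (c x))) ∧
        ∀ q ≤ p0, ∃ r ≤ q, ∃ h'' : Val r t.1 t.2, (⟨r, t.1, t.2, h''⟩ : Cnd P K) ∈ φ i := by
    intro g c i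
    by_cases h : Val p0 g c
    · obtain ⟨g', c', h', h1, h2⟩ := step hP (hφ i) (hdense i) p0 g c h
      exact ⟨(g', c'), fun _ => ⟨h', h1.2.1, h1.2.2, h2⟩⟩
    · exact ⟨(g, c), fun h' => absurd h' h⟩
  choose F hF using hex
  obtain ⟨st, hst⟩ := exists_st C b F g0 c0
  have hub : ∀ S, (ub g0 st S).Nonempty := ub_nonempty hM hm g0 st
  have hI : ∀ ξ, Inv C p0 g0 c0 st ξ := inv hC h0 hst hub
    (fun g c i h => (hF g c i h).1) (fun g c i h => (hF g c i h).2.1)
    (fun g c i h => (hF g c i h).2.2.1)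
  have hI' : ∀ η ∈ (Set.univ : Set M), Inv C p0 g0 c0 st η := fun η _ => hI η
  have hv := val_addp (S := Set.univ) hC h0 hub (fun _ _ _ _ => trivial) hI'
  refine ⟨⟨p0, top g0 st Set.univ, addp (pre c0 st Set.univ) (top g0 st Set.univ), hv⟩,
    ⟨le_rfl, (top_mem (hub _)).1.le, fun x hx q hq => ?_⟩, rfl, fun i q hq => ?_⟩
  · rw [meets_addp (lt_of_le_of_lt hx (top_mem (hub _)).1).ne]
    exact A1' hI' hx hq
  · obtain ⟨q', hq', ξ, hξ, hm'⟩ := hC.hit {m | b m = i}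
      (fun a => by obtain ⟨m, h1, h2⟩ := hb i a; exact ⟨m, h2, h1⟩) q
    have hI1 : ∀ η ∈ Set.Iio ξ, Inv C p0 g0 c0 st η := fun η _ => hI η
    have hS : ∀ η ∈ Set.Iio ξ, ∀ ζ < η, ζ ∈ Set.Iio ξ := fun η hη ζ hζ => lt_trans hζ hη
    have hv1 := val_addp hC h0 hub hS hI1
    obtain ⟨h', _, _, h3⟩ := hF _ _ (b ξ) hv1
    obtain ⟨r, hr, h'', hrφ⟩ := h3 q' (hq'.trans hq)
    have hrp : r ≤ p0 := hr.trans (hq'.trans hq)
    have e1 := congrArg Prod.fst (hst ξ)
    have e2 := congrArg Prod.snd (hst ξ)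
    have hlt : (st ξ).1 < top g0 st Set.univ := (top_mem (hub _)).2 ξ trivial
    refine ⟨r, hr.trans hq', hv.mono hrp, ?_⟩
    have hξ' : b ξ = i := hξ
    rw [← hξ']
    refine hφ _ _ hrφ _ ⟨le_rfl, ?_, fun x hx s hs => ?_⟩
    · change (F _ _ (b ξ)).1 ≤ top g0 st Set.univ
      change (st ξ).1 = (F _ _ (b ξ)).1 at e1
      rw [← e1]
      exact hlt.le
    · change x ≤ (F _ _ (b ξ)).1 at hx
      change (st ξ).1 = (F _ _ (b ξ)).1 at e1
      rw [← e1] at hx
      change s ∈ meets (addp (pre c0 st Set.univ) (top g0 st Set.univ) x) ↔ _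
      rw [meets_addp (lt_of_le_of_lt hx hlt).ne, A1 h0 hI' (Set.mem_univ ξ) hx (hs.trans hrp), e2]
      exact mix2_pos (down_meets _ _ hm' s (hs.trans hr))

end Pool.Agent.W873.Club
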