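import Pool.Agent.W873.Club2

set_option autoImplicit false

/-!
# Shooting a club without infinite ground model subsets: the generic club, cardinals
-/

namespace Pool.Agent.W873.Club

open Cardinal Pool.Agent.Helper669.Forcing

section generic

variable {P K : Type} [Preorder P] [LinearOrder K]

/-- the name of the generic club -/
def gen (P K : Type) [Preorder P] [LinearOrder K] : K → Set (Cnd P K) :=
  fun x => {d | x ≤ d.g ∧ d.p ∈ meets (d.c x)}

/-- restrict the first coordinate -/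
def Cnd.res (d : Cnd P K) (q : P) (hq : q ≤ d.p) : Cnd P K := ⟨q, d.g, d.c, d.val.mono hq⟩

theorem Cnd.res_le (d : Cnd P K) (q : P) (hq : q ≤ d.p) : d.res q hq ≤ d :=
  ⟨hq, le_rfl, fun _ _ _ _ => Iff.rfl⟩

theorem gen_iff (d : Cnd P K) {x : K} (hx : x ≤ d.g) :
    d ∈ meets (gen P K x) ↔ d.p ∈ meets (d.c x) := by
  constructor
  · intro h
    refine meets_dense fun q hq => ?_
    obtain ⟨e, he, s, hs, hes⟩ := h (d.res q hq) (d.res_le q hq)
    have h1 : e.p ∈ meets (s.c x) := down_meets _ _ hs.2 _ hes.1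
    have h2 : e.p ∈ meets (e.c x) := (hes.2.2 x hs.1 e.p le_rfl).2 h1
    exact ⟨e.p, he.1, (he.2.2 x hx e.p le_rfl).1 h2⟩
  · intro h
    exact meets_of_mem ⟨hx, h⟩

theorem exists_raise (d : Cnd P K) (g : K) : ∃ e ≤ d, g ≤ e.g ∧ e.p = d.p ∧ e.c = d.c :=
  ⟨⟨d.p, max d.g g, d.c, d.val.raise (le_max_left _ _)⟩,
    ⟨le_rfl, le_max_left _ _, fun _ _ _ _ => Iff.rfl⟩, le_max_right _ _, rfl, rfl⟩

theorem good_gen (hcof : ∀ f : ℕ → K, ∃ b, ∀ n, f n < b) : Good (gen P K) := by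
  refine ⟨fun z hz d hn => ?_, fun d => ?_, fun B hB d => ?_⟩
  · obtain ⟨e, he, hze, -, -⟩ := exists_raise d z
    have h1 : e.p ∈ fnot (meets (e.c z)) := fun q hq hm =>
      hn (e.res q hq) ((e.res_le q hq).trans he) ((gen_iff (e.res q hq) hze).2 hm)
    obtain ⟨r, hr, b, hb, hx⟩ := e.val.cl z hz e.p le_rfl h1
    refine ⟨e.res r hr, (e.res_le r hr).trans he, b, hb, fun x hbx hxz f hf hm => ?_⟩
    have hxe : x ≤ e.g := hxz.le.trans hze
    have h2 : f.p ∈ meets (f.c x) := (gen_iff f (hxe.trans hf.2.1)).1 hm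
    exact hx x hbx hxz f.p hf.1 ((hf.2.2 x hxe f.p le_rfl).1 h2)
  · by_contra hinf
    have hinf : {x | d ∈ meets (gen P K x)}.Infinite := hinf
    obtain ⟨b, hb⟩ := hcof fun n => (hinf.natEmbedding _ n : K)
    obtain ⟨e, he, hbe, -, -⟩ := exists_raise d b
    refine (Set.infinite_range_of_injective (f := fun n => (hinf.natEmbedding _ n : K))
      (fun m n h => (hinf.natEmbedding _).injective (Subtype.ext h))) ?_
    refine (e.val.fin e.p le_rfl).subset ?_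
    rintro _ ⟨n, rfl⟩
    exact (gen_iff e ((hb n).le.trans hbe)).1 (down_meets _ _ (hinf.natEmbedding _ n).2 e he)
  · obtain ⟨b, hb, hdb⟩ := hB d.g
    refine ⟨⟨d.p, b, _, addpt d.val hdb⟩, ⟨le_rfl, hdb.le, fun x hx q hq => ?_⟩, b, hb, ?_⟩
    · have : (d.c x ∪ {s | x = b} : Set P) = d.c x := by
        ext s
        simp [(lt_of_le_of_lt hx hdb).ne]
      change q ∈ meets (d.c x ∪ {s | x = b}) ↔ _
      rw [this]
    · exact meets_of_mem ⟨le_rfl, meets_of_mem (Or.inr rfl)⟩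

end generic

section card

/-- A small forcing notion does not collapse a large cardinal. -/
theorem no_onto_of_small {P : Type} [Preorder P] {μ ν : Cardinal.{0}} (hP : #P < ν) (hμ : μ < ν)
    (hν : ℵ₀ ≤ ν) (p : P) :
    p ∉ fex fun R : μ.out → ν.out → Set P => fand (IsFun R) (IsOnto R) := by
  classical
  intro h
  obtain ⟨d, _, R, hfun, honto⟩ := mem_fex.1 h p le_rfl
  have hex : ∀ t : μ.out × P, ∃ y : ν.out, ∀ y', t.2 ≤ d → t.2 ∈ meets (R t.1 y') → y' = y := by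
    intro t
    by_cases ht : ∃ y, t.2 ≤ d ∧ t.2 ∈ meets (R t.1 y)
    · obtain ⟨y, h1, h2⟩ := ht
      exact ⟨y, fun y' _ h3 => IsFun.unique (down_IsFun R _ hfun _ h1) h3 h2⟩
    · have : Nonempty ν.out := by
        rw [← mk_ne_zero_iff, mk_out]
        exact (aleph0_pos.trans_le hν).ne'
      exact ⟨this.some, fun y' h1 h2 => absurd ⟨y', h1, h2⟩ ht⟩
  choose f hf using hex
  have hsurj : Function.Surjective f := by
    intro y
    obtain ⟨e, he, x, hx⟩ := mem_fex.1 (honto y) d le_rfl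
    exact ⟨(x, e), (hf (x, e) y he hx).symm⟩
  have h1 : #(ν.out) ≤ #(μ.out × P) := mk_le_of_surjective hsurj
  rw [mk_prod, lift_id, lift_id, mk_out, mk_out] at h1
  exact absurd h1 (not_le.2 (mul_lt_of_lt hν hμ hP))

variable {P M K : Type} [Preorder P] [LinearOrder M] [WellFoundedLT M] [LinearOrder K]
  [WellFoundedLT K]

theorem preserved_small (hP : ∀ f : P → K, ∃ b, ∀ p, f p < b)
    (hM : ∀ f : M → K, ∃ b, ∀ m, f m < b) (hm : ∀ a : K, ∃ b, a < b)
    {C : M → Set P} (hC : Good C) {b : M → M} (hb : ∀ i a, ∃ m, a < m ∧ b m = i)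
    {X Y : Type} (s : M → X) (hs : Function.Surjective s)
    (hpres : ∀ p : P, p ∉ fex fun R : X → Y → Set P => fand (IsFun R) (IsOnto R))
    (d : Cnd P K) :
    d ∉ fex fun R : X → Y → Set (Cnd P K) => fand (IsFun R) (IsOnto R) := by
  intro h
  obtain ⟨d, _, R, hfun, honto⟩ := mem_fex.1 h d le_rfl
  let φ : M → Set (Cnd P K) := fun i =>
    {e | (∃ y, e ∈ meets (R (s i) y)) ∨ ∀ e' ≤ e, ¬ e' ≤ d}
  have hφ : ∀ i, Down (φ i) := by
    rintro i e (⟨y, hy⟩ | he) e' he'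
    · exact Or.inl ⟨y, down_meets _ _ hy e' he'⟩
    · exact Or.inr fun e'' h => he e'' (h.trans he')
  have hdense : ∀ i, ∀ e, ∃ e' ≤ e, e' ∈ φ i := by
    intro i e
    by_cases hc : ∃ e' ≤ e, e' ≤ d
    · obtain ⟨e', h1, h2⟩ := hc
      obtain ⟨e'', h3, y, hy⟩ := IsFun.total (down_IsFun R _ hfun _ h2) (s i)
      exact ⟨e'', h3.trans h1, Or.inl ⟨y, hy⟩⟩
    · exact ⟨e, le_rfl, Or.inr fun e' h1 h2 => hc ⟨e', h1, h2⟩⟩
  obtain ⟨e, he, hep, hdec⟩ := distributive hP hM hm hC hb hφ hdense d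
  have hdec' : ∀ x, ∀ q ≤ e.p, ∃ r, ∃ hr : r ≤ e.p, r ≤ q ∧ ∃ y, e.res r hr ∈ meets (R x y) := by
    intro x q hq
    obtain ⟨i, rfl⟩ := hs x
    obtain ⟨r, hr, hv, hφr⟩ := hdec i q (hep ▸ hq)
    refine ⟨r, hr.trans hq, hr, ?_⟩
    rcases hφr with h1 | h1
    · exact h1
    · exact absurd ((e.res_le r (hr.trans hq)).trans he) (h1 _ le_rfl)
  let R' : X → Y → Set P := fun x y => {r | ∃ hr : r ≤ e.p, e.res r hr ∈ meets (R x y)}
  have hR' : ∀ x y, Down (R' x y) := by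
    rintro x y r ⟨hr, h1⟩ r' hr'
    exact ⟨hr'.trans hr, down_meets _ _ h1 _ ⟨hr', le_rfl, fun _ _ _ _ => Iff.rfl⟩⟩
  refine hpres e.p (mem_fex_of_mem R' (down_fand (down_IsFun _) (down_IsOnto _)) ⟨⟨?_, ?_⟩, ?_⟩)
  · intro x
    refine mem_fex.2 fun q hq => ?_
    obtain ⟨r, hr, hrq, y, hy⟩ := hdec' x q hq
    exact ⟨r, hrq, y, meets_of_mem ⟨hr, hy⟩⟩
  · intro x y y'
    refine mem_fimp.2 fun q hq hqq => ⟨q, le_rfl, ?_⟩
    obtain ⟨r, hr, hr1⟩ := exists_of_meets (hR' x y) hqq.1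
    obtain ⟨r', hr', hr1'⟩ := exists_of_meets (hR' x y') (down_meets _ _ hqq.2 r hr)
    obtain ⟨h1, h2⟩ := hr1'
    obtain ⟨h3, h4⟩ := hR' x y r hr1 r' hr'
    exact IsFun.unique (down_IsFun R _ hfun _ ((e.res_le r' h1).trans he)) h4 h2
  · intro y
    refine mem_fex.2 fun q hq => ?_
    obtain ⟨f, hf, x, hx⟩ := mem_fex.1 (honto y) (e.res q hq) ((e.res_le q hq).trans he)
    obtain ⟨r, hr, hrf, y', hy'⟩ := hdec' x f.p (hf.1.trans hq)
    have h1 : f.res r hrf ≤ f := f.res_le r hrf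
    have h2 : f.res r hrf ≤ e.res r hr := ⟨le_rfl, hf.2.1, fun z hz t ht =>
      hf.2.2 z hz t (le_trans ht hrf)⟩
    have h3 : f.res r hrf ≤ d := (h2.trans (e.res_le r hr)).trans he
    have h4 : y = y' := IsFun.unique (down_IsFun R _ hfun _ h3) (down_meets _ _ hx _ h1)
      (down_meets _ _ hy' _ h2)
    subst h4
    exact ⟨r, hrf.trans hf.1, x, meets_of_mem ⟨hr, hy'⟩⟩

theorem mk_Cnd_le {μ κ : Cardinal.{0}} (hμ : ℵ₀ ≤ μ) (hP : #P ≤ μ) (hK : #K = κ) (hμκ : μ ≤ κ)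
    (hpow : (2 : Cardinal.{0}) ^ μ ≤ κ) (hIic : ∀ a : K, #(Set.Iic a) ≤ μ) :
    #(Cnd P K) ≤ κ := by
  let f : Cnd P K → P × Σ g : K, (Set.Iic g → Set P) := fun d => (d.p, ⟨d.g, fun x => d.c x⟩)
  have hf : Function.Injective f := by
    rintro ⟨p, g, c, h⟩ ⟨p', g', c', h'⟩ heq
    simp only [f, Prod.mk.injEq, Sigma.mk.injEq] at heq
    obtain ⟨rfl, rfl, h3⟩ := heq
    have h3 := eq_of_heq h3
    have : c = c' := by
      funext x
      rcases le_or_gt x g with hx | hx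
      · exact congrFun h3 ⟨x, hx⟩
      · rw [h.supp x hx, h'.supp x hx]
    subst this
    rfl
  have hκ : ℵ₀ ≤ κ := hμ.trans hμκ
  refine (mk_le_of_injective hf).trans ?_
  rw [mk_prod, lift_id, lift_id, mk_sigma]
  have h1 : ∀ g : K, #(Set.Iic g → Set P) ≤ κ := by
    intro g
    rw [← power_def, mk_set, ← power_mul]
    refine (power_le_power_left two_ne_zero ?_).trans hpow
    exact (mul_le_mul' hP (hIic g)).trans (mul_eq_self hμ).le
  have h2 : Cardinal.sum (fun g : K => #(Set.Iic g → Set P)) ≤ κ := by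
    refine (Cardinal.sum_le_sum _ (fun _ => κ) h1).trans ?_
    rw [sum_const, lift_id, lift_id, hK]
    exact (mul_eq_self hκ).le
  exact (mul_le_mul' (hP.trans hμκ) h2).trans (mul_eq_self hκ).le

end card

end Pool.Agent.W873.Club
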