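import Pool.Agent.W873.Club3

set_option autoImplicit false

/-!
# Shooting a club without infinite ground model subsets: Cohen forcing, and the induction
-/

namespace Pool.Agent.W873.Club

open Cardinal Pool.Agent.Helper669.Forcing

/-! ### Cohen forcing -/

/-- Finite approximations to a subset of `ℕ`. -/
structure Coh where
  n : ℕ
  s : Finset ℕ

instance : Preorder Coh where
  le q p := p.n ≤ q.n ∧ ∀ x < p.n, (x ∈ q.s ↔ x ∈ p.s)
  le_refl _ := ⟨le_rfl, fun _ _ => Iff.rfl⟩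
  le_trans _ _ _ h h' := ⟨h'.1.trans h.1, fun x hx =>
    (h.2 x (hx.trans_le h'.1)).trans (h'.2 x hx)⟩

def coh : ℕ → Set Coh := fun x => {p | x < p.n ∧ x ∈ p.s}

theorem mk_Coh : #Coh ≤ ℵ₀ := by
  have : Function.Injective fun p : Coh => (p.n, p.s) := by
    rintro ⟨n, s⟩ ⟨n', s'⟩ h
    simp only [Prod.mk.injEq] at h
    obtain ⟨rfl, rfl⟩ := h
    rfl
  exact (mk_le_of_injective this).trans (mk_le_aleph0)

theorem good_coh : Good coh := by
  refine ⟨fun z hz d _ => ?_, fun d => ?_, fun B hB d => ?_⟩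
  · obtain ⟨b, hb⟩ := hz
    exact ⟨d, le_rfl, z - 1, by omega, fun x h1 h2 => by omega⟩
  · refine (Set.finite_Iio d.n).subset fun x hx => ?_
    by_contra hcon
    have hx1 : d.n ≤ x := not_lt.1 hcon
    obtain ⟨r, hr, s, hs, hrs⟩ := (show d ∈ meets (coh x) from hx)
      ⟨x + 1, d.s.filter (· < d.n)⟩ ⟨by change d.n ≤ x + 1; omega, fun y hy => by simp [hy]⟩
    have h1 : x ∈ r.s := (hrs.2 x hs.1).2 hs.2
    have h2 := (hr.2 x (Nat.lt_succ_self x)).1 h1
    simp only [Finset.mem_filter] at h2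
    omega
  · obtain ⟨b, hb, hdb⟩ := hB d.n
    refine ⟨⟨b + 1, insert b (d.s.filter (· < d.n))⟩, ⟨by change d.n ≤ b + 1; omega,
      fun y hy => ?_⟩, b, hb, meets_of_mem ⟨Nat.lt_succ_self b, Finset.mem_insert_self _ _⟩⟩
    have : y ≠ b := by omega
    simp [this, hy]

/-! ### The induction -/

/-- Some forcing notion of size at most `#M` preserves cardinals and adds a good subset
of `M`. -/
def Stage (M : Type) [LinearOrder M] : Prop :=
  ∃ (P : Type) (_ : Preorder P), Nonempty P ∧ #P ≤ #M ∧ (∃ C : M → Set P, Good C) ∧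
    ∀ p : P, p ∈ CardinalsPreserved.{0, 0} P

theorem stage_zero : Stage ℕ := by
  refine ⟨Coh, inferInstance, ⟨⟨0, ∅⟩⟩, ?_, ⟨coh, good_coh⟩, fun p => ?_⟩
  · rw [mk_nat]
    exact mk_Coh
  · intro μ ν hμν hν q _ hcon
    exact no_onto_of_small (mk_Coh.trans_lt hν) hμν hν.le q hcon

theorem stage_succ {M : Type} [LinearOrder M] [WellFoundedLT M] {μ : Cardinal.{0}} (hM : #M = μ)
    (hμ : ℵ₀ ≤ μ) (hb : ∃ b : M → M, ∀ i a, ∃ m, a < m ∧ b m = i)
    (hpow : (2 : Cardinal.{0}) ^ μ = Order.succ μ) (h : Stage M) :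
    Stage (Order.succ μ).ord.ToType := by
  classical
  obtain ⟨P, _, hne, hP, ⟨C, hC⟩, hpres⟩ := h
  obtain ⟨b, hb⟩ := hb
  have hreg : (Order.succ μ).IsRegular := isRegular_succ hμ
  have hcof : ∀ S : Set (Order.succ μ).ord.ToType, #S ≤ μ → ∃ b, ∀ s ∈ S, s < b := by
    intro S hS
    by_contra hcon
    push Not at hcon
    have h1 : IsCofinal S := fun b => by
      obtain ⟨s, hs, hb⟩ := hcon b
      exact ⟨s, hs, hb⟩
    have h2 := Order.cof_le h1
    rw [Ordinal.cof_toType, hreg.cof_ord] at h2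
    exact absurd (h2.trans hS) (not_le.2 (Order.lt_succ _))
  have hbd : ∀ T : Type, #T ≤ μ → ∀ f : T → (Order.succ μ).ord.ToType, ∃ b, ∀ t, f t < b := by
    intro T hT f
    obtain ⟨b, hb⟩ := hcof (Set.range f) (mk_range_le.trans hT)
    exact ⟨b, fun t => hb _ ⟨t, rfl⟩⟩
  have hm : ∀ a : (Order.succ μ).ord.ToType, ∃ b, a < b := by
    intro a
    obtain ⟨b, hb⟩ := hbd Unit (by rw [mk_fintype]; exact_mod_cast (natCast_lt_aleph0 (n := 1)).le.trans hμ)
      fun _ => a
    exact ⟨b, hb ()⟩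
  have hPK : ∀ f : P → (Order.succ μ).ord.ToType, ∃ b, ∀ p, f p < b :=
    hbd P (hP.trans hM.le)
  have hMK : ∀ f : M → (Order.succ μ).ord.ToType, ∃ b, ∀ p, f p < b := hbd M hM.le
  have hNK : ∀ f : ℕ → (Order.succ μ).ord.ToType, ∃ b, ∀ p, f p < b :=
    hbd ℕ (by rw [mk_nat]; exact hμ)
  have hK : #(Order.succ μ).ord.ToType = Order.succ μ := by
    rw [mk_toType, card_ord]
  have hIic : ∀ a : (Order.succ μ).ord.ToType, #(Set.Iic a) ≤ μ := by
    intro a
    obtain ⟨b, hb⟩ := hm a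
    have h1 : #(Set.Iio b) < Order.succ μ := by
      have := mk_Iio_toType_ord_lt b
      simpa using this
    exact (mk_le_mk_of_subset (fun x hx => lt_of_le_of_lt hx hb)).trans (Order.lt_succ_iff.1 h1)
  have hcard : #(Cnd P (Order.succ μ).ord.ToType) ≤ Order.succ μ :=
    mk_Cnd_le hμ (hP.trans hM.le) hK (Order.le_succ μ) hpow.le hIic
  obtain ⟨p0⟩ := hne
  refine ⟨Cnd P (Order.succ μ).ord.ToType, inferInstance, ?_, ?_, ⟨_, good_gen hNK⟩, fun d => ?_⟩
  · obtain ⟨g, _⟩ := hNK fun _ => (hbd Empty (by simp) Empty.elim).choose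
    exact ⟨⟨p0, g, fun _ => ∅, ⟨fun _ _ => rfl,
      fun z hz q _ _ => ⟨q, le_rfl, hz.choose, hz.choose_spec, fun x _ _ r _ hr =>
        meets_empty r hr⟩, fun q _ => by
          convert Set.finite_empty (α := (Order.succ μ).ord.ToType)
          ext x
          simp only [Set.mem_ofPred_eq, Set.mem_empty_iff_false, iff_false]
          exact meets_empty q⟩⟩⟩
  · rw [hK]
    exact hcard
  · intro μ' ν hμν hν e _ hcon
    by_cases hle : μ' ≤ μ
    · have hne : Nonempty μ'.out := by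
        obtain ⟨e1, _, R, _, honto⟩ := mem_fex.1 hcon e le_rfl
        have : Nonempty ν.out := by
          rw [← mk_ne_zero_iff, mk_out]
          exact (aleph0_pos.trans hν).ne'
        obtain ⟨_, _, x, _⟩ := mem_fex.1 (honto this.some) e1 le_rfl
        exact ⟨x⟩
      have h1 : #(μ'.out) ≤ #M := by rw [mk_out, hM]; exact hle
      obtain ⟨j⟩ := h1
      exact preserved_small hPK hMK hm hC hb (Function.invFun j) (Function.invFun_surjective j.2)
        (fun p hp => hpres p μ' ν hμν hν p le_rfl hp) e hcon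
    · exact no_onto_of_small (((hcard.trans (Order.succ_le_of_lt (not_le.1 hle)))).trans_lt hμν)
        hμν hν.le e hcon

theorem exists_b_nat : ∃ b : ℕ → ℕ, ∀ i a, ∃ m, a < m ∧ b m = i := by
  refine ⟨fun m => m.unpair.1, fun i a => ⟨Nat.pair i (a + 1), ?_, by simp⟩⟩
  have := Nat.right_le_pair i (a + 1)
  omega

theorem exists_b {μ : Cardinal.{0}} (hμ : ℵ₀ ≤ μ) :
    ∃ b : μ.ord.ToType → μ.ord.ToType, ∀ i a, ∃ m, a < m ∧ b m = i := by
  have hK : #μ.ord.ToType = μ := by rw [mk_toType, card_ord]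
  have : #μ.ord.ToType = #(μ.ord.ToType × μ.ord.ToType) := by
    rw [mk_prod, lift_id, hK, mul_eq_self hμ]
  obtain ⟨e⟩ := Cardinal.eq.1 this
  refine ⟨fun m => (e m).2, fun i a => ?_⟩
  by_contra hcon
  push Not at hcon
  have h1 : ∀ x, e.symm (x, i) ≤ a := by
    intro x
    by_contra hlt
    exact hcon _ (not_le.1 hlt) (by simp)
  have h2 : #μ.ord.ToType ≤ #(Set.Iic a) := by
    refine mk_le_of_injective (f := fun x => (⟨e.symm (x, i), h1 x⟩ : Set.Iic a)) ?_
    intro x y hxy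
    have := congrArg Subtype.val hxy
    simpa using this
  rw [hK] at h2
  have h3 : #(Set.Iio a) < μ := by
    have := mk_Iio_toType_ord_lt a
    simpa using this
  have h4 : #(Set.Iic a) < μ := by
    have : Set.Iic a = insert a (Set.Iio a) := by
      ext x
      simp [le_iff_eq_or_lt]
    rw [this]
    refine (mk_insert_le).trans_lt ?_
    exact add_lt_of_lt hμ h3 (one_lt_aleph0.trans_le hμ)
  exact absurd h2 (not_le.2 h4)

theorem stage (n : ℕ) (h : ∀ k ≤ n, (2 : Cardinal.{0}) ^ ℵ_ (k : Ordinal) = ℵ_ ((k + 1 : ℕ) : Ordinal)) :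
    Stage (ℵ_ ((n + 1 : ℕ) : Ordinal)).ord.ToType := by
  induction n with
  | zero =>
    have h0 := h 0 le_rfl
    have e1 : ℵ_ ((0 + 1 : ℕ) : Ordinal) = Order.succ ℵ₀ := by
      rw [← aleph_zero, succ_aleph]; simp
    rw [e1]
    refine stage_succ mk_nat le_rfl exists_b_nat ?_ stage_zero
    rw [e1] at h0
    simpa using h0
  | succ n ih =>
    have h0 := h (n + 1) le_rfl
    have e1 : ℵ_ ((n + 1 + 1 : ℕ) : Ordinal) = Order.succ (ℵ_ ((n + 1 : ℕ) : Ordinal)) := by
      rw [succ_aleph]; simp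
    rw [e1]
    refine stage_succ (by rw [mk_toType, card_ord]) (aleph0_le_aleph _)
      (exists_b (aleph0_le_aleph _)) ?_ (ih fun k hk => h k (hk.trans (Nat.le_succ n)))
    rw [e1] at h0
    exact h0

end Pool.Agent.W873.Club
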